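import Mathlib

set_option autoImplicit false

namespace Pool.Agent.Results.MP_3f07b9_an.NoAccumulation

open Finset Matrix

/-- The mean of a vector. -/
noncomputable def mean {n : ℕ} (x : Fin n → ℝ) : ℝ := (∑ k, x k) / n

/-- Pearson correlation. -/
noncomputable def corr {n : ℕ} (x y : Fin n → ℝ) : ℝ :=
  (∑ k, (x k - mean x) * (y k - mean y)) /
    Real.sqrt ((∑ k, (x k - mean x) ^ 2) * ∑ k, (y k - mean y) ^ 2)

/-- The correlation map: the matrix of correlations of the rows. -/
noncomputable def corrMap {n : ℕ} (A : Matrix (Fin n) (Fin n) ℝ) : Matrix (Fin n) (Fin n) ℝ :=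
  Matrix.of fun i j => corr (A i) (A j)

/-- The elliptope `C_n`. -/
def Elliptope (n : ℕ) : Set (Matrix (Fin n) (Fin n) ℝ) :=
  {A | A.PosSemidef ∧ ∀ i, A i i = 1}

/-- The all-ones matrix. -/
def J (n : ℕ) : Matrix (Fin n) (Fin n) ℝ := Matrix.of fun _ _ => 1

/-- The elliptope without the all-ones matrix. -/
def Cnd (n : ℕ) : Set (Matrix (Fin n) (Fin n) ℝ) := Elliptope n \ {J n}

/-- The forward orbit `A_0, A_1 = C(A_0), A_2 = C(A_1), ...`. -/
noncomputable def orbit {n : ℕ} (A₀ : Matrix (Fin n) (Fin n) ℝ) (k : ℕ) : Matrix (Fin n) (Fin n) ℝ :=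
  corrMap^[k] A₀

/-- A norm on the space of real `n × n` matrices (any norm). -/
structure IsNorm {n : ℕ} (N : Matrix (Fin n) (Fin n) ℝ → ℝ) : Prop where
  add_le : ∀ A B, N (A + B) ≤ N A + N B
  smul_eq : ∀ (c : ℝ) A, N (c • A) = |c| * N A
  eq_zero : ∀ A, N A = 0 → A = 0

variable {n : ℕ}

lemma quad (A : Matrix (Fin n) (Fin n) ℝ) (hA : A.IsHermitian) (i j : Fin n) :
    star (Pi.single i (1 : ℝ) - Pi.single j 1 : Fin n → ℝ) ⬝ᵥ
      (A *ᵥ (Pi.single i (1 : ℝ) - Pi.single j 1)) = A i i + A j j - 2 * A i j := by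
  have h : A j i = A i j := by
    have := hA.apply i j
    simpa using this
  simp [Matrix.mulVec_sub, sub_dotProduct, h]
  ring

lemma entry_le {A : Matrix (Fin n) (Fin n) ℝ} (hA : A ∈ Elliptope n) (i j : Fin n) : A i j ≤ 1 := by
  have h1 := hA.1.dotProduct_mulVec_nonneg (Pi.single i (1 : ℝ) - Pi.single j 1)
  rw [quad A hA.1.isHermitian i j, hA.2 i, hA.2 j] at h1
  linarith

lemma entry_eq {A : Matrix (Fin n) (Fin n) ℝ} (hA : A ∈ Elliptope n) (i j : Fin n) (h : A i j = 1)
    (k : Fin n) : A k i = A k j := by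
  have h1 : star (Pi.single i (1 : ℝ) - Pi.single j 1 : Fin n → ℝ) ⬝ᵥ
      (A *ᵥ (Pi.single i (1 : ℝ) - Pi.single j 1)) = 0 := by
    rw [quad A hA.1.isHermitian i j, hA.2 i, hA.2 j, h]; norm_num
  have h2 := (hA.1.dotProduct_mulVec_zero_iff _).1 h1
  have h3 := congrFun h2 k
  simp [Matrix.mulVec_sub] at h3
  linarith

/-- no constant rows away from the all-ones matrix -/
lemma row_nonconst {A : Matrix (Fin n) (Fin n) ℝ} (hA : A ∈ Cnd n) (i : Fin n) :
    ∃ j, A i j ≠ A i i := by
  by_contra hcon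
  push Not at hcon
  apply hA.2
  have h1 : ∀ j k, A k i = A k j := fun j k => entry_eq hA.1 i j (by rw [hcon j, hA.1.2 i]) k
  ext k j
  have h2 : A k k = A k i := (h1 k k).symm
  rw [← h1 j k, ← h2, hA.1.2 k]
  simp [J]

/-- centred row -/
noncomputable def cen (A : Matrix (Fin n) (Fin n) ℝ) (i k : Fin n) : ℝ := A i k - mean (A i)

/-- length of the centred row -/
noncomputable def len (A : Matrix (Fin n) (Fin n) ℝ) (i : Fin n) : ℝ :=
  Real.sqrt (∑ k, cen A i k ^ 2)

/-- normalised centred row -/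
noncomputable def uu (A : Matrix (Fin n) (Fin n) ℝ) (i k : Fin n) : ℝ := cen A i k / len A i

lemma len_pos {A : Matrix (Fin n) (Fin n) ℝ} (hA : A ∈ Cnd n) (i : Fin n) : 0 < len A i := by
  rw [len, Real.sqrt_pos]
  obtain ⟨j, hj⟩ := row_nonconst hA i
  by_contra hcon
  have h0 : ∑ k, cen A i k ^ 2 = 0 :=
    le_antisymm (not_lt.1 hcon) (Finset.sum_nonneg (fun k _ => sq_nonneg _))
  rw [Finset.sum_eq_zero_iff_of_nonneg (fun k _ => sq_nonneg _)] at h0
  have h1 := h0 j (Finset.mem_univ j)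
  have h2 := h0 i (Finset.mem_univ i)
  rw [sq_eq_zero_iff, cen] at h1 h2
  apply hj
  linarith

lemma corrMap_apply (A : Matrix (Fin n) (Fin n) ℝ) (i j : Fin n) :
    corrMap A i j = ∑ k, uu A i k * uu A j k := by
  have h1 : ∀ k, uu A i k * uu A j k = cen A i k * cen A j k / (len A i * len A j) := by
    intro k
    rw [uu, uu, div_mul_div_comm]
  simp_rw [h1]
  rw [← Finset.sum_div]
  rw [corrMap, Matrix.of_apply, corr, len, len,
    ← Real.sqrt_mul (Finset.sum_nonneg (fun k _ => sq_nonneg _))]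
  rfl

lemma sum_uu {A : Matrix (Fin n) (Fin n) ℝ} (i : Fin n) : ∑ k, uu A i k = 0 := by
  simp only [uu]
  rw [← Finset.sum_div]
  have hn : (n : ℝ) ≠ 0 := by
    have : 0 < n := Nat.pos_of_ne_zero (by rintro rfl; exact i.elim0)
    positivity
  have : ∑ k, cen A i k = 0 := by
    simp only [cen, mean]
    rw [Finset.sum_sub_distrib]
    simp
    field_simp
    ring
  rw [this, zero_div]

lemma sum_sq_uu {A : Matrix (Fin n) (Fin n) ℝ} (hA : A ∈ Cnd n) (i : Fin n) :
    ∑ k, uu A i k ^ 2 = 1 := by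
  have h := len_pos hA i
  simp only [uu, div_pow]
  rw [← Finset.sum_div, len, Real.sq_sqrt (Finset.sum_nonneg (fun k _ => sq_nonneg _))]
  rw [len, Real.sqrt_pos] at h
  exact div_self h.ne'

lemma uu_le {A : Matrix (Fin n) (Fin n) ℝ} (hA : A ∈ Cnd n) (i k : Fin n) : uu A i k ≤ uu A i i := by
  have h := len_pos hA i
  have h1 := entry_le hA.1 i k
  have h2 := hA.1.2 i
  unfold uu cen
  gcongr
  rw [h2]; exact h1

/-- The key uniform bound. -/
lemma key (hn : 0 < n) {A : Matrix (Fin n) (Fin n) ℝ} (hA : A ∈ Cnd n) :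
    ∃ i j, corrMap A i j ≤ 1 - 1 / (8 * n) := by
  by_contra hcon
  push Not at hcon
  have hn' : (0 : ℝ) < n := by exact_mod_cast hn
  let o : Fin n := ⟨0, hn⟩
  -- close rows
  have hclose : ∀ i k, (uu A o k - uu A i k) ^ 2 < 1 / (4 * n) := by
    intro i k
    have h1 : (uu A o k - uu A i k) ^ 2 ≤ ∑ k, (uu A o k - uu A i k) ^ 2 :=
      Finset.single_le_sum (f := fun k => (uu A o k - uu A i k) ^ 2) (fun k _ => sq_nonneg _)
        (Finset.mem_univ k)
    have h2 : ∑ k, (uu A o k - uu A i k) ^ 2 = 2 - 2 * corrMap A o i := by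
      have : ∀ k, (uu A o k - uu A i k) ^ 2 =
          uu A o k ^ 2 + uu A i k ^ 2 - 2 * (uu A o k * uu A i k) := by
        intro k; ring
      simp_rw [this]
      rw [Finset.sum_sub_distrib, Finset.sum_add_distrib, sum_sq_uu hA, sum_sq_uu hA,
        ← Finset.mul_sum, ← corrMap_apply]
      norm_num
    have h3 := hcon o i
    have h4 : 1 / (4 * (n : ℝ)) = 2 * (1 / (8 * n)) := by field_simp; norm_num
    rw [h4]
    linarith
  set η : ℝ := Real.sqrt (1 / (4 * n)) with hη
  have hη0 : 0 < η := by rw [hη]; positivity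
  have hη2 : η ^ 2 = 1 / (4 * n) := by rw [hη, Real.sq_sqrt (by positivity)]
  have habs : ∀ i k, |uu A o k - uu A i k| < η := by
    intro i k
    rw [hη]
    apply Real.lt_sqrt_of_sq_lt
    rw [sq_abs]
    exact hclose i k
  -- small oscillation of row o
  have hosc : ∀ i k, uu A o k - 2 * η < uu A o i := by
    intro i k
    have h1 := (abs_lt.1 (habs i i)).1
    have h2 := (abs_lt.1 (habs i k)).2
    have h3 := uu_le hA i k
    linarith
  -- so every entry of row o is small
  have hsmall : ∀ k, uu A o k ^ 2 < (2 * η) ^ 2 := by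
    intro k
    have h1 : ∑ i, (uu A o k - 2 * η) < ∑ i, uu A o i :=
      Finset.sum_lt_sum_of_nonempty ⟨o, Finset.mem_univ o⟩ (fun i _ => hosc i k)
    have h2 : ∑ i, uu A o i < ∑ i : Fin n, (uu A o k + 2 * η) :=
      Finset.sum_lt_sum_of_nonempty ⟨o, Finset.mem_univ o⟩ (fun i _ => by
        have := hosc k i
        linarith)
    rw [sum_uu] at h1 h2
    simp only [Finset.sum_const, Finset.card_univ, Fintype.card_fin, nsmul_eq_mul] at h1 h2
    have h3 : uu A o k - 2 * η < 0 := by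
      by_contra h
      push Not at h
      have := mul_nonneg hn'.le h
      linarith
    have h4 : 0 < uu A o k + 2 * η := by
      by_contra h
      push Not at h
      have := mul_nonpos_of_nonneg_of_nonpos hn'.le h
      linarith
    exact sq_lt_sq' (by linarith) (by linarith)
  have h5 : ∑ k, uu A o k ^ 2 < ∑ k : Fin n, (2 * η) ^ 2 :=
    Finset.sum_lt_sum_of_nonempty ⟨o, Finset.mem_univ o⟩ (fun k _ => hsmall k)
  rw [sum_sq_uu hA] at h5
  simp only [Finset.sum_const, Finset.card_univ, Fintype.card_fin, nsmul_eq_mul] at h5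
  rw [mul_pow, hη2] at h5
  have h6 : (n : ℝ) * (2 ^ 2 * (1 / (4 * n))) = 1 := by field_simp; norm_num
  linarith

lemma pos_of_mem {A : Matrix (Fin n) (Fin n) ℝ} (hA : A ∈ Cnd n) : 0 < n := by
  apply Nat.pos_of_ne_zero
  rintro rfl
  apply hA.2
  ext i
  exact i.elim0

lemma corrMap_mem {A : Matrix (Fin n) (Fin n) ℝ} (hA : A ∈ Cnd n) : corrMap A ∈ Cnd n := by
  have hn := pos_of_mem hA
  have hn' : (0 : ℝ) < n := by exact_mod_cast hn
  refine ⟨⟨?_, ?_⟩, ?_⟩
  · have h1 : corrMap A = (Matrix.of (uu A)) * (Matrix.of (uu A))ᴴ := by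
      ext i j
      rw [corrMap_apply, Matrix.mul_apply]
      simp
    rw [h1]
    exact Matrix.posSemidef_self_mul_conjTranspose _
  · intro i
    rw [corrMap_apply, ← sum_sq_uu hA i]
    congr 1; ext k; ring
  · intro h
    obtain ⟨i, j, hij⟩ := key hn hA
    rw [Set.mem_singleton_iff.1 h] at hij
    simp only [J, Matrix.of_apply] at hij
    have : 0 < 1 / (8 * (n : ℝ)) := by positivity
    linarith

lemma orbit_mem {A : Matrix (Fin n) (Fin n) ℝ} (hA : A ∈ Cnd n) (k : ℕ) : orbit A k ∈ Cnd n := by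
  induction k with
  | zero => exact hA
  | succ k ih =>
    rw [orbit, Function.iterate_succ_apply']
    exact corrMap_mem ih

/-- any norm dominates the entries -/
lemma norm_lower {N : Matrix (Fin n) (Fin n) ℝ → ℝ} (hN : IsNorm N) :
    ∃ c : ℝ, 0 < c ∧ ∀ M : Matrix (Fin n) (Fin n) ℝ, ∀ i j, c * |M i j| ≤ N M := by
  have hN0 : N 0 = 0 := by
    have := hN.smul_eq 0 0
    simpa using this
  have hneg : ∀ A, N (-A) = N A := by
    intro A
    have := hN.smul_eq (-1) A
    simpa using this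
  have hnn : ∀ A, 0 ≤ N A := by
    intro A
    have h1 := hN.add_le A (-A)
    rw [add_neg_cancel, hN0, hneg] at h1
    linarith
  -- work with functions on the index set
  let V := Fin n × Fin n → ℝ
  let mk : V → Matrix (Fin n) (Fin n) ℝ := fun v => Matrix.of fun i j => v (i, j)
  have hmk_add : ∀ v w, mk (v + w) = mk v + mk w := fun v w => by ext i j; rfl
  have hmk_sub : ∀ v w, mk (v - w) = mk v - mk w := fun v w => by ext i j; rfl
  have hmk_smul : ∀ (c : ℝ) v, mk (c • v) = c • mk v := fun c v => by ext i j; rfl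
  let f : V → ℝ := fun v => N (mk v)
  set L : ℝ := ∑ p : Fin n × Fin n, N (mk (Pi.single p 1)) with hL
  have hL0 : 0 ≤ L := Finset.sum_nonneg (fun p _ => hnn _)
  have hub : ∀ v : V, f v ≤ L * ‖v‖ := by
    intro v
    have hsum : ∀ (s : Finset (Fin n × Fin n)), N (∑ p ∈ s, v p • mk (Pi.single p 1)) ≤
        ∑ p ∈ s, |v p| * N (mk (Pi.single p 1)) := by
      intro s
      induction s using Finset.induction_on with
      | empty => simp [hN0]
      | insert a s ha ih =>
        rw [Finset.sum_insert ha, Finset.sum_insert ha]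
        refine (hN.add_le _ _).trans ?_
        rw [hN.smul_eq]
        linarith
    have hv : mk v = ∑ p, v p • mk (Pi.single p 1) := by
      ext i j
      simp only [mk, Matrix.of_apply, Matrix.sum_apply, Matrix.smul_apply, smul_eq_mul]
      simp [Pi.single_apply]
    calc f v = N (∑ p, v p • mk (Pi.single p 1)) := by simp only [f]; rw [← hv]
      _ ≤ ∑ p, |v p| * N (mk (Pi.single p 1)) := hsum _
      _ ≤ ∑ p, ‖v‖ * N (mk (Pi.single p 1)) := by
          apply Finset.sum_le_sum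
          intro p _
          exact mul_le_mul_of_nonneg_right (norm_le_pi_norm v p) (hnn _)
      _ = L * ‖v‖ := by rw [← Finset.mul_sum, mul_comm]
  have hcont : Continuous f := by
    apply continuous_iff_continuousAt.2
    intro v
    rw [Metric.continuousAt_iff]
    intro ε hε
    refine ⟨ε / (L + 1), by positivity, fun {w} hw => ?_⟩
    have h1 : f w ≤ f v + f (w - v) := by
      have := hN.add_le (mk v) (mk (w - v))
      rw [← hmk_add] at this
      simpa [f] using this
    have h2 : f v ≤ f w + f (v - w) := by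
      have := hN.add_le (mk w) (mk (v - w))
      rw [← hmk_add] at this
      simpa [f] using this
    have h3 := hub (w - v)
    have h4 := hub (v - w)
    rw [dist_eq_norm] at hw
    rw [norm_sub_rev v w] at h4
    have h5 : L * ‖w - v‖ < ε := by
      have h6 : (L + 1) * ‖w - v‖ < ε := by
        rw [lt_div_iff₀ (by positivity)] at hw
        linarith
      have := norm_nonneg (w - v)
      nlinarith
    rw [Real.dist_eq, abs_lt]
    constructor <;> linarith
  by_cases hn : n = 0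
  · subst hn
    exact ⟨1, one_pos, fun M i => i.elim0⟩
  have hne : (Metric.sphere (0 : V) 1).Nonempty := by
    have : Nonempty (Fin n) := ⟨⟨0, Nat.pos_of_ne_zero hn⟩⟩
    have : Nontrivial V := by infer_instance
    exact (NormedSpace.sphere_nonempty (E := V)).2 zero_le_one
  obtain ⟨v0, hv0, hmin⟩ := (isCompact_sphere (0 : V) 1).exists_isMinOn hne hcont.continuousOn
  have hc : 0 < f v0 := by
    refine lt_of_le_of_ne (hnn _) (fun h => ?_)
    have h1 := hN.eq_zero _ h.symm
    have h2 : v0 = 0 := by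
      ext p
      have h3 := congrFun (congrFun h1 p.1) p.2
      have h4 : v0 p = 0 := by simpa [mk] using h3
      exact h4
    rw [h2] at hv0
    simp at hv0
  refine ⟨f v0, hc, fun M i j => ?_⟩
  let v : V := fun p => M p.1 p.2
  have hMv : mk v = M := by ext i j; rfl
  have h1 : |M i j| ≤ ‖v‖ := norm_le_pi_norm v (i, j)
  by_cases hv : v = 0
  · rw [hv, norm_zero] at h1
    have h2 : |M i j| = 0 := le_antisymm h1 (abs_nonneg _)
    rw [h2, mul_zero]
    exact hnn _
  have hvn : 0 < ‖v‖ := norm_pos_iff.2 hv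
  have h2 : (‖v‖⁻¹ • v) ∈ Metric.sphere (0 : V) 1 := by
    rw [mem_sphere_zero_iff_norm, norm_smul, norm_inv, norm_norm, inv_mul_cancel₀ hvn.ne']
  have h3 : f v0 ≤ f (‖v‖⁻¹ • v) := hmin h2
  have h4 : f (‖v‖⁻¹ • v) = ‖v‖⁻¹ * N M := by
    simp only [f]
    rw [hmk_smul, hN.smul_eq, hMv, abs_of_pos (by positivity)]
  rw [h4] at h3
  calc f v0 * |M i j| ≤ f v0 * ‖v‖ := by gcongr
    _ ≤ ‖v‖⁻¹ * N M * ‖v‖ := by gcongr
    _ = N M := by field_simp

/-- **Main theorem.** For every `n`, for every norm, the distance of the orbit of any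
`A₀ ∈ C_n \ {11ᵀ}` to the all-ones matrix is bounded below by a positive constant; from the first
iterate on the constant depends only on `n` and the norm. -/
theorem result (n : ℕ) (N : Matrix (Fin n) (Fin n) ℝ → ℝ) (hN : IsNorm N) :
    (∃ c : ℝ, 0 < c ∧ ∀ A₀ ∈ Cnd n, ∀ k : ℕ, 1 ≤ k → c ≤ N (orbit A₀ k - J n)) ∧
      ∀ A₀ ∈ Cnd n, 0 < ⨅ k : ℕ, N (orbit A₀ k - J n) := by
  obtain ⟨c, hc, hlow⟩ := norm_lower hN
  have h1 : ∃ c : ℝ, 0 < c ∧ ∀ A₀ ∈ Cnd n, ∀ k : ℕ, 1 ≤ k → c ≤ N (orbit A₀ k - J n) := by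
    by_cases hn : n = 0
    · refine ⟨1, one_pos, fun A₀ hA₀ => ?_⟩
      exact absurd (pos_of_mem hA₀) (by omega)
    have hn1 : 0 < n := Nat.pos_of_ne_zero hn
    have hn' : (0 : ℝ) < n := by exact_mod_cast hn1
    refine ⟨c * (1 / (8 * n)), by positivity, fun A₀ hA₀ k hk => ?_⟩
    obtain ⟨m, rfl⟩ : ∃ m, k = m + 1 := ⟨k - 1, by omega⟩
    obtain ⟨i, j, hij⟩ := key hn1 (orbit_mem hA₀ m)
    have h2 : orbit A₀ (m + 1) = corrMap (orbit A₀ m) := by
      rw [orbit, Function.iterate_succ_apply']; rfl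
    refine le_trans ?_ (hlow _ i j)
    rw [h2]
    apply mul_le_mul_of_nonneg_left _ hc.le
    rw [Matrix.sub_apply, J, Matrix.of_apply, abs_sub_comm]
    refine le_trans ?_ (le_abs_self _)
    linarith
  refine ⟨h1, ?_⟩
  intro A₀ hA₀
  obtain ⟨c', hc', h2⟩ := h1
  have h0 : 0 < N (A₀ - J n) := by
    have hnn : 0 ≤ N (A₀ - J n) := by
      have hn1 := pos_of_mem hA₀
      have := hlow (A₀ - J n) ⟨0, hn1⟩ ⟨0, hn1⟩
      refine le_trans ?_ this
      positivity
    refine lt_of_le_of_ne hnn (fun h => ?_)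
    have h3 := hN.eq_zero _ h.symm
    exact hA₀.2 (sub_eq_zero.1 h3)
  have h3 : min c' (N (A₀ - J n)) ≤ ⨅ k : ℕ, N (orbit A₀ k - J n) := by
    apply le_ciInf
    intro k
    by_cases hk : 1 ≤ k
    · exact (min_le_left _ _).trans (h2 A₀ hA₀ k hk)
    · have : k = 0 := by omega
      subst this
      exact min_le_right _ _
  exact lt_of_lt_of_le (lt_min hc' h0) h3

end Pool.Agent.Results.MP_3f07b9_an.NoAccumulation
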